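import Pool.Agent.Work.MP_34e428_co.ZFinal

/-! The zombie number of the toroidal grid `C_n □ C_n` is of order `n ^ (3 / 2)`.

Definitions (files `Frame` and `Upper` in `Pool/Agent/Work/MP_34e428_co`):
* `closer G v z` : the neighbours of `z` which lie on a shortest path from `z` to `v`;
* `move G v z w` : the probability that a zombie at `z` moves to `w` when the survivor is at `v`
  (uniform on `closer G v z`);
* `val G T z v` : the probability, under optimal play, that a survivor at `v` facing zombies at the
  vertices `z 0, …, z (k - 1)` is not caught now nor in the next `T` rounds (in a round the zombies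
  move first, independently, then the survivor moves to a neighbour or stays put);
* `survT G k T` : the same probability for `k` zombies placed uniformly at random, the survivor
  choosing the starting vertex after seeing them;
* `surv G k` : the infimum over `T`, the probability `s_k(G)` that the survivor is never caught;
* `zombieNumber G` : the least `k` with `surv G k ≤ 1 / 2`;
* `torus n` : `C_n □ C_n`. -/

namespace Pool.Agent.Results.MP_34e428_co.Order

open MP34e

theorem result : ∃ c : ℝ, 0 < c ∧ ∀ n : ℕ, 3 ≤ n →
    c * (n * Real.sqrt n) ≤ (zombieNumber (torus n) : ℝ) ∧
    (zombieNumber (torus n) : ℝ) ≤ 1001 * (n * Real.sqrt n) :=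
  order

end Pool.Agent.Results.MP_34e428_co.Order
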